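import Pool.Agent.Lib.MP_7b6720_al.HQ.All3

set_option autoImplicit false

/-!
# Every Cayley graph of the symmetric group has diameter at most `n ^ (C log n)`

For every generating set of `Sym(n)` (or of `Alt(n)`) the diameter of the Cayley graph is at most
`exp (C (log n) ^ 2)`.
-/

namespace Pool.Agent.Results.MP_7b6720_al.DiameterNPowLogN

/-- There is an absolute constant `C` such that for every `n` and every set `A` of permutations of
`n` points which generates a group containing the alternating group, every element of this group is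
a product of at most `exp (C (log n) ^ 2)` elements of `A` and their inverses. -/
theorem result : ∃ C : ℝ, ∀ (n : ℕ) (A : Set (Equiv.Perm (Fin n))),
    alternatingGroup (Fin n) ≤ Subgroup.closure A → ∀ g ∈ Subgroup.closure A,
      ∃ l : List (Equiv.Perm (Fin n)),
        (l.length : ℝ) ≤ Real.exp (C * Real.log n ^ 2) ∧
        (∀ y ∈ l, y ∈ A ∨ y⁻¹ ∈ A) ∧ l.prod = g := by
  obtain ⟨C, hC⟩ := SymDiam.HQ.main_all3
  refine ⟨C, fun n A hA g hg => ?_⟩
  obtain ⟨r, h1, l, h2, h3, h4⟩ := hC n A hA g hg
  exact ⟨l, le_trans (by exact_mod_cast h2) h1, h3, h4⟩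

end Pool.Agent.Results.MP_7b6720_al.DiameterNPowLogN
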