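import Pool.Agent.Lib.MP_7b6720_al.LB.EX.Main

set_option autoImplicit false

/-!
# Exponentially large balls in Cayley graphs of the symmetric group

If some ball of radius `L` in the Cayley graph has at least `2 ^ (200 n)` elements then the diameter
is at most `L * n ^ 26`.  So the diameter is at most `n ^ 26` for every generating set with at least
`2 ^ (200 n)` elements, and Babai's conjecture for the symmetric groups holds if and only if, for
some constant `c`, every ball of radius `n ^ c` that is not everything has at least `2 ^ (200 n)`
elements.
-/

namespace Pool.Agent.Results.MP_7b6720_al.ExponentialBall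

/-- Let `A` be a set of permutations of `n` points such that the group generated by `A` contains the
alternating group, and let `L` be positive.  If the number of products of at most `L` elements of
`A` and their inverses is at least `2 ^ (200 n)`, then every element of the group generated by `A`
is a product of at most `L * n ^ 26` elements of `A` and their inverses. -/
theorem result (n L : ℕ) (hL : 1 ≤ L) (A : Set (Equiv.Perm (Fin n)))
    (hA : alternatingGroup (Fin n) ≤ Subgroup.closure A)
    (hball : 2 ^ (200 * n) ≤ Set.ncard {x : Equiv.Perm (Fin n) |
      ∃ l : List (Equiv.Perm (Fin n)), l.length ≤ L ∧ (∀ y ∈ l, y ∈ A ∨ y⁻¹ ∈ A) ∧ l.prod = x}) :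
    ∀ g ∈ Subgroup.closure A, ∃ l : List (Equiv.Perm (Fin n)),
      l.length ≤ L * n ^ 26 ∧ (∀ y ∈ l, y ∈ A ∨ y⁻¹ ∈ A) ∧ l.prod = g := by
  classical
  have hfin : Set.Finite {x : Equiv.Perm (Fin n) | SymDiam.InBall A L x} := Set.toFinite _
  refine SymDiam.EX.expo hA hL hfin.toFinset (fun x hx => by simpa using hx) ?_
  rw [← Set.ncard_eq_toFinset_card _ hfin]
  exact hball

end Pool.Agent.Results.MP_7b6720_al.ExponentialBall
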