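import Pool.Agent.Lib.MP_7b6720_al.INV.H96.MainQ
import Pool.Agent.Lib.MP_7b6720_al.INV.H98.Triv

set_option autoImplicit false

/-!
# Generating sets of the symmetric group with an involution having many fixed points

If a product of `L` generators is an involution which fixes at least `n / m` points then the
diameter is at most `L * n ^ (298 * m)` (for `400000 * m ^ 2 ≤ n`).  So the diameter is polynomial
as soon as some product of polynomially many generators is an involution with at least `ε n` fixed
points, for any fixed `ε > 0`.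
-/

namespace Pool.Agent.Results.MP_7b6720_al.InvolutionDiameter

/-- Let `A` be a set of permutations of `n` points such that the group generated by `A` contains the
alternating group, and let the involution `t` be a product of at most `L` elements of `A` and their
inverses.  If `t` fixes at least `n / m` points then every element of the group generated by `A` is
a product of at most `L * n ^ (400000 * m ^ 2)` elements of `A` and their inverses, and of at most
`L * n ^ (298 * m)` if `400000 * m ^ 2 ≤ n`. -/
theorem result (n m L : ℕ) (A : Set (Equiv.Perm (Fin n)))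
    (hA : alternatingGroup (Fin n) ≤ Subgroup.closure A) (t : Equiv.Perm (Fin n))
    (htA : ∃ l : List (Equiv.Perm (Fin n)), l.length ≤ L ∧ (∀ x ∈ l, x ∈ A ∨ x⁻¹ ∈ A) ∧ l.prod = t)
    (ht1 : t ≠ 1) (ht2 : t * t = 1)
    (hfix : n ≤ m * (Finset.univ.filter fun x => t x = x).card) :
    ∀ g ∈ Subgroup.closure A,
      (∃ l : List (Equiv.Perm (Fin n)),
        l.length ≤ L * n ^ (400000 * m ^ 2) ∧ (∀ x ∈ l, x ∈ A ∨ x⁻¹ ∈ A) ∧ l.prod = g) ∧
      (400000 * m ^ 2 ≤ n → ∃ l : List (Equiv.Perm (Fin n)),
        l.length ≤ L * n ^ (298 * m) ∧ (∀ x ∈ l, x ∈ A ∨ x⁻¹ ∈ A) ∧ l.prod = g) := by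
  intro g hg
  have key := fun hn => SymDiam.H96.mainQ n m L A hA t htA ht1 ht2 hfix hn g hg
  refine ⟨?_, key⟩
  have hn2 : 2 ≤ n := by
    by_contra hlt
    apply ht1
    have : n = 0 ∨ n = 1 := by omega
    ext x
    rcases this with h | h
    · subst h; exact x.elim0
    · subst h; exact congrArg _ (Subsingleton.elim _ _)
  have hm : 1 ≤ m := by
    rcases Nat.eq_zero_or_pos m with h | h
    · subst h; omega
    · exact h
  have hL : 1 ≤ L := by
    rcases Nat.eq_zero_or_pos L with h | h
    · subst h
      obtain ⟨l, h1, -, h3⟩ := htA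
      have : l = [] := List.eq_nil_of_length_eq_zero (by omega)
      subst this
      exact absurd h3.symm (by simpa using ht1)
    · exact h
  have hp : ∀ i j : ℕ, i ≤ j → n ^ i ≤ n ^ j := fun i j hij => Nat.pow_le_pow_right (by omega) hij
  by_cases hn : 400000 * m ^ 2 ≤ n
  · refine SymDiam.InBall.mono (key hn) (Nat.mul_le_mul_left _ (hp _ _ ?_))
    nlinarith
  · refine SymDiam.InBall.mono (SymDiam.H98.triv n A g hg) ?_
    calc n.factorial ≤ n ^ n := Nat.factorial_le_pow n
      _ ≤ n ^ (400000 * m ^ 2) := hp _ _ (by omega)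
      _ ≤ L * n ^ (400000 * m ^ 2) := Nat.le_mul_of_pos_left _ hL

end Pool.Agent.Results.MP_7b6720_al.InvolutionDiameter
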